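import Pool.Agent.Run7.h740.DLaw

/-!
# Decompositions `n = k + m` with `6 k - 1`, `6 k - 1 + N₀`, `p_m` and `p_m + N₁` prime, for EVERY large `n` and random
multiples `N₀`, `N₁` of a small primorial

The random integers `v j < b ^ d` have `d` digits in base `b`, and the digits of each of them (1) are the labels of a walk
between two vertices of a graph, which may be infinite, or (2) form a correctly nested word, or (3) form a Markov random field
on an arbitrary graph of positions of bounded degree (`Law`, the classes of laws of helper927; the uniform distribution on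
`[0, b ^ d)` is a special case of (3)). The laws may be of different kinds.

`∑ v ∈ Fintype.piFinset (fun _ => range (b ^ d)), (if P v then 0 else ∏ j, μ j (v j))` is the probability that the random
integers do not have the property `P`.
-/

set_option autoImplicit false

open Finset

namespace Pool.Agent.Results.MP_ea8352_nt.DigitLawPairs

open Pool.Agent.Run7.h740.DL (Law V Nv)

/-- the `k`-th prime, `p 1 = 2` -/
noncomputable def p (k : ℕ) : ℕ := Nat.nth Nat.Prime (k - 1)

/-- the `k`, `0 < k < n`, for which `6 k - 1` is prime -/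
def Six (n : ℕ) : Finset ℕ := (Ioo 0 n).filter (fun k => (6 * k - 1).Prime)

/-- the `k ∈ K` such that `6 k - 1 + N 0` and `p_m + N 1`, `m = n - k`, are prime -/
noncomputable def Good (n : ℕ) (K : Finset ℕ) (N : Fin 2 → ℤ) : Finset ℕ :=
  K.filter (fun k => (N 0 + (6 * k - 1 : ℕ)).toNat.Prime ∧ (N 1 + (p (n - k) : ℕ)).toNat.Prime)

lemma six_low : ∃ n₀ : ℕ, ∀ n : ℕ, n₀ ≤ n → (n : ℝ) / (8 * Real.log n) ≤ ((Six n).card : ℝ) := by
  obtain ⟨X₀, h0⟩ := Pool.Agent.N625.PT.ap_window 1 1 le_rfl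
  obtain ⟨n₁, h1⟩ := Pool.Agent.H373R2.T7.ev_L' 6
  refine ⟨max (X₀ + 7) (max n₁ 42), fun n hn => ?_⟩
  have hL := h1 n (by omega)
  obtain ⟨X, hX⟩ : ∃ X, X = 6 * n - 7 := ⟨_, rfl⟩
  have hnr : (42 : ℝ) ≤ n := by exact_mod_cast (by omega : 42 ≤ n)
  have hXr : (X : ℝ) = 6 * n - 7 := by
    rw [hX, Nat.cast_sub (by omega)]
    push_cast
    ring
  have hLX : Real.log n ≤ Real.log X := Real.log_le_log (by linarith) (by rw [hXr]; linarith)
  have h2 := h0 X (by omega) 6 (by norm_num) (by push_cast; linarith) 5 (by norm_num) 0 (by omega) (by omega)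
  have h3 : ((Ioc 0 X).filter (fun q : ℕ => q.Prime ∧ q ≡ 5 [MOD 6])).card ≤ (Six n).card := by
    apply card_le_card_of_injOn (fun q => (q + 1) / 6)
    · intro q hq
      rw [mem_coe, mem_filter, mem_Ioc] at hq
      rw [mem_coe]
      unfold Six
      rw [mem_filter, mem_Ioo]
      have e1 : q % 6 = 5 := hq.2.2
      have e2 : 6 * ((q + 1) / 6) - 1 = q := by omega
      have e3 := hq.1.2
      rw [hX] at e3
      refine ⟨⟨?_, ?_⟩, ?_⟩
      · show 0 < (q + 1) / 6
        omega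
      · show (q + 1) / 6 < n
        omega
      show (6 * ((q + 1) / 6) - 1).Prime
      rw [e2]
      exact hq.2.1
    · intro q hq q' hq' he
      rw [mem_coe, mem_filter, mem_Ioc] at hq hq'
      have e1 : q % 6 = 5 := hq.2.2
      have e1' : q' % 6 = 5 := hq'.2.2
      simp only at he
      omega
  have h4 : (((Ioc 0 X).filter (fun q : ℕ => q.Prime ∧ q ≡ 5 [MOD 6])).card : ℝ) ≤ ((Six n).card : ℝ) := by exact_mod_cast h3
  refine le_trans ?_ (h2.trans h4)
  have hL0 : 0 < Real.log n := by linarith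
  have hLX0 : 0 < Real.log X := by linarith
  have hLX2 : Real.log X ≤ Real.log n + 2 := by
    have e1 : Real.log X ≤ Real.log (6 * n) := Real.log_le_log (by rw [hXr]; linarith) (by rw [hXr]; linarith)
    have e2 : Real.log (6 * n) = Real.log 6 + Real.log n := Real.log_mul (by norm_num) (by linarith)
    have e3 : Real.log 6 ≤ 2 := by
      have e4 : (6 : ℝ) ≤ Real.exp 2 := by
        have := Real.add_one_le_exp (1 : ℝ)
        have e5 : Real.exp 2 = Real.exp 1 * Real.exp 1 := by rw [← Real.exp_add]; norm_num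
        have e6 := Real.exp_one_gt_d9
        rw [e5]
        nlinarith
      calc Real.log 6 ≤ Real.log (Real.exp 2) := Real.log_le_log (by norm_num) e4
        _ = 2 := Real.log_exp 2
    linarith
  rw [div_le_div_iff₀ (by positivity) (by push_cast; positivity)]
  obtain ⟨l, hl⟩ : ∃ l, l = Real.log (X : ℝ) := ⟨_, rfl⟩
  rw [← hl] at hLX2 ⊢
  obtain ⟨L, hLd⟩ : ∃ L, L = Real.log (n : ℝ) := ⟨_, rfl⟩
  rw [← hLd] at hLX2 hL ⊢
  rw [hXr]
  push_cast
  have g1 : (n : ℝ) * l ≤ n * (L + 2) := mul_le_mul_of_nonneg_left hLX2 (by linarith)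
  have g2 : 6 * (24 * (n : ℝ) - 56) ≤ L * (24 * (n : ℝ) - 56) := mul_le_mul_of_nonneg_right hL (by linarith)
  nlinarith

open Classical in
/-- Let `𝓕 j`, `j < 2`, be families of distributions in `Law b` (digits which label walks in a graph; correctly nested words;
Markov random fields; they may be of different kinds), let `v j < b ^ d` be independent random integers whose distributions
`μ j` belong to the families `𝓕 j`, let `y` be between `θ log d` and `K₁ log d` (`θ > 0` is arbitrary), `M` the product of the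
primes `≤ y`, `|c j| ≤ B b ^ d`, `1 ≤ h j ≤ d ^ J`, `N_j = M h_j (c_j + κ_j v_j)`, and let `n` be ANY integer with
`b ^ d ≤ n d ^ C`, `n ≤ b ^ d d ^ C`. At least `n / (8 log n)` integers `k`, `0 < k < n`, are such that `6 k - 1` is prime, and
for every set `K` of at least `n / d ^ A` of these `k` (for instance all of them): with a probability of at least `1 - ε`, if
`N_0, N_1 > 0`, the number of the `k ∈ K` for which `6 k - 1 + N_0` and `p_m + N_1`, `m = n - k`, are prime differs from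
`E = #K / (V y log b ^ d) ^ 2` by at most `ε E`. -/
theorem result : ∀ (b : ℕ), 2 ≤ b → ∀ (𝓕 : Fin 2 → ℕ → (ℕ → ℝ) → Prop), (∀ j, Law b (𝓕 j)) → ∀ κ : Fin 2 → ℤ,
    (∀ j, κ j ≠ 0) → ∀ (B J A C K₁ : ℕ) (θ : ℝ), 0 < θ → ∀ ε : ℝ, 0 < ε → ε ≤ 1 → ∃ d₀ : ℕ, ∀ d : ℕ, d₀ ≤ d →
    ∀ μ : Fin 2 → ℕ → ℝ, (∀ j, 𝓕 j d (μ j)) →
    ∀ y : ℕ, θ * Real.log d ≤ y → y ≤ K₁ * Real.log d →
    ∀ c : Fin 2 → ℤ, (∀ j, |c j| ≤ B * (b : ℤ) ^ d) → ∀ h : Fin 2 → ℕ, (∀ j, 1 ≤ h j ∧ h j ≤ d ^ J) →
    ∀ n : ℕ, b ^ d ≤ n * d ^ C → n ≤ b ^ d * d ^ C →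
      (n : ℝ) / (8 * Real.log n) ≤ ((Six n).card : ℝ) ∧
      ∀ K : Finset ℕ, K ⊆ Six n → n ≤ K.card * d ^ A →
        ∑ v ∈ Fintype.piFinset (fun _ : Fin 2 => range (b ^ d)), (if (∀ j, 0 < Nv y (h j) (c j) (κ j) (v j)) →
          |((Good n K (fun j => Nv y (h j) (c j) (κ j) (v j))).card : ℝ) - K.card / (V y * (d * Real.log b)) ^ 2| ≤
            ε * (K.card / (V y * (d * Real.log b)) ^ 2) then 0 else ∏ j, μ j (v j)) ≤ ε := by
  intro b hb 𝓕 hF κ hκ B J A C K₁ θ hθ ε hε hε1
  obtain ⟨d₁, h1⟩ := Pool.Agent.Run7.h740.DL.gen 2 hb hF κ hκ B J (A + C) (C + 10) K₁ θ hθ ε hε hε1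
  obtain ⟨d₂, h2⟩ := Pool.Agent.Run7.h740.DL.size b C hb
  obtain ⟨d₃, h3⟩ := Pool.Agent.N625.PT.X_large b C hb
  obtain ⟨n₁, hn₁⟩ := six_low
  obtain ⟨n₂, hn₂⟩ := Pool.Agent.Y877.SX.nth_le_log
  obtain ⟨n₃, hn₃⟩ := Pool.Agent.H373R2.T7.ev_L' 6
  refine ⟨max (max d₁ d₂) (max (max d₃ n₁) (max n₂ n₃)), fun d hd μ hμ y hy1 hy2 c hc h hh n hx1 hx2 => ?_⟩
  have hdn : d ≤ n := h3 d (by omega) n hx1
  refine ⟨hn₁ n (by omega), fun K hK hKc => ?_⟩
  have hL := hn₃ n (by omega)
  have hn0 : (0 : ℝ) ≤ n := Nat.cast_nonneg n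
  obtain ⟨f, hf⟩ : ∃ f : Fin 2 → ℕ → ℕ, f = ![fun k => 6 * k - 1, fun k => p (n - k)] := ⟨_, rfl⟩
  have hf0 : ∀ k, f 0 k = 6 * k - 1 := fun k => by rw [hf]; rfl
  have hf1 : ∀ k, f 1 k = p (n - k) := fun k => by rw [hf]; rfl
  have hKm : ∀ k ∈ K, 0 < k ∧ k < n ∧ (6 * k - 1).Prime := by
    intro k hk
    have := hK hk
    unfold Six at this
    rw [mem_filter, mem_Ioo] at this
    exact ⟨this.1.1, this.1.2, this.2⟩
  have hmain := h1 d (by omega) μ hμ y hy1 hy2 c hc h hh (b ^ d * d ^ (C + 10)) le_rfl K f (by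
      intro j
      fin_cases j
      · intro k hk k' hk' he
        have e1 := hKm k hk
        have e2 := hKm k' hk'
        simp only [Fin.zero_eta, hf0] at he
        omega
      · intro k hk k' hk' he
        have e1 := hKm k hk
        have e2 := hKm k' hk'
        simp only [Fin.mk_one, hf1] at he
        have e3 := Pool.Agent.Run7.h740.DL.nth_inj he
        omega) (by
      intro j k hk
      have e1 := hKm k hk
      fin_cases j
      · simp only [Fin.zero_eta, hf0]
        refine ⟨e1.2.2, h2 d (by omega) n hx2 _ ?_⟩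
        have e2 : ((6 * k - 1 : ℕ) : ℝ) ≤ 6 * n := by exact_mod_cast (by omega : 6 * k - 1 ≤ 6 * n)
        have e3 : (6 : ℝ) ≤ Real.log n ^ 5 := by
          calc (6 : ℝ) ≤ Real.log n := hL
            _ ≤ Real.log n ^ 5 := le_self_pow₀ (by linarith) (by norm_num)
        nlinarith
      · simp only [Fin.mk_one, hf1]
        refine ⟨Nat.prime_nth_prime _, h2 d (by omega) n hx2 _ ?_⟩
        refine (hn₂ n (by omega) (n - k - 1) (by omega)).trans ?_
        apply mul_le_mul_of_nonneg_left _ hn0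
        exact pow_le_pow_right₀ (by linarith) (by norm_num)) (by
      calc b ^ d ≤ n * d ^ C := hx1
        _ ≤ (K.card * d ^ A) * d ^ C := Nat.mul_le_mul_right _ hKc
        _ = _ := by rw [pow_add]; ring) (fun _ => 1) (fun _ => Or.inl rfl)
  refine le_trans (sum_le_sum fun v _ => ?_) hmain
  have hex := fun j => Pool.Agent.Run7.h740.DL.siev_of (hF j)
  choose L hsv using hex
  have hprod : 0 ≤ ∏ j, μ j (v j) := prod_nonneg fun j _ => (hsv j).nonneg d (μ j) (hμ j) _
  split_ifs with c1 c2 c2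
  · exact le_rfl
  · exact hprod
  · exfalso
    apply c1
    intro hpos
    have hres := c2 (fun j i _ => by
      have e1 := hpos j
      have e2 : (0 : ℤ) ≤ (f j i : ℕ) := Int.natCast_nonneg _
      linarith)
    have hfe : K.filter (fun i => ∀ j : Fin 2, (Nv y (h j) (c j) (κ j) (v j) + 1 * (f j i : ℕ)).toNat.Prime) =
        Good n K (fun j => Nv y (h j) (c j) (κ j) (v j)) := by
      unfold Good
      apply filter_congr
      intro i _
      rw [Fin.forall_fin_two, hf0, hf1, one_mul, one_mul]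
    rw [hfe] at hres
    exact hres
  · exact le_rfl

end Pool.Agent.Results.MP_ea8352_nt.DigitLawPairs
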