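import Pool.Agent.Run7.h414.HL.G

/-!
# EVERY large `n`: the number of the splittings `n = k + m` with `6 k - 1 + N₀`, `6 k + 1 + N₁` and `p_m + N₂` prime, where the
# twin prime pair and the gap of the problem are displaced by random multiples of a small primorial

The digits of the random integer `v` are given by a determinantal random set `S` of positions (a determinantal point process
with an arbitrary Hermitian kernel): the digit number `i` is `y i` if `i ∈ S` and `x i ≠ y i` otherwise. Examples (their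
existence is not used and not formalised): the edges of a uniform spanning tree of a graph with `d` edges; stationary
determinantal processes with any symbol which is not almost everywhere `0` or almost everywhere `1` (for example the discrete
sine process with any density); independent digits, for example the integers all of whose digits are `0` or `1`.

Definitions used (in `Pool.Agent.Run7.h414.DP.Law` and `Pool.Agent.Run7.h414.DP.Fam`): `DetLaw`, `GoodPos`, `DetDigits`
(used with `t = 0`: `0 ≤ p v ≤ μ v` with the law `μ` of an integer with determinantal digits).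

Method: the characteristic function is `det (1 + D A)`; the inequality `|det N|² ≤ exp (tr N* N - k)` for
`N = 1 + B D B*`, `A = B* B`, bounds it by `exp (- E)` with an energy `E` which is at least a constant times the number of
the places where the frequency is far from the rational numbers with small denominators. With this input the sieve and the
circle method of the starting library for exchangeable blocks (`Pool.Agent.N625.PT`, in the form for classes of laws of
`Pool.Agent.Run7.h672.XC`) go through.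
-/

set_option autoImplicit false

open Finset
open Pool.Agent.Run7.h414.DP (DetDigits)
open Pool.Agent.Run7.h414.HL (det_tuple' bad_few pr pr_prime pr_lt pr_strict pr_inj pr_le)

namespace Pool.Agent.Results.MP_ea8352_nt.DisplacedIndices

/-- the `j`-th prime, `j ≥ 1` -/
noncomputable def p (j : ℕ) : ℕ := Nat.nth Nat.Prime (j - 1)

/-- the product of `1 - 1/q` over the primes `q ≤ y` -/
noncomputable def V (y : ℕ) : ℝ := ∏ q ∈ (Icc 1 y).filter Nat.Prime, (1 - 1 / (q : ℝ))

/-- the multiple of the product of the primes `≤ y` given by the integers `h` and `c + κ v` -/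
def Nv (y h : ℕ) (c κ : ℤ) (v : ℕ) : ℤ := ((primorial y * h : ℕ) : ℤ) * (c + κ * v)

/-- the `1 ≤ k < n` such that `6 k - 1` is prime to `D` and `6 k + 1` is prime to `D'` -/
def Free (D D' n : ℕ) : Finset ℕ := (Icc 1 (n - 1)).filter (fun k : ℕ => (6 * k - 1).Coprime D ∧ (6 * k + 1).Coprime D')

/-- the number of the splittings `n = k + m`, `k, m ≥ 1`, such that `6 k - 1 + N 0`, `6 k + 1 + N 1` and `p_m + N 2` are prime -/
noncomputable def Split (n : ℕ) (N : Fin 3 → ℤ) : ℝ :=
  ((Icc 1 (n - 1)).filter (fun k : ℕ => (6 * (k : ℤ) - 1 + N 0).toNat.Prime ∧ (6 * (k : ℤ) + 1 + N 1).toNat.Prime ∧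
    ((p (n - k) : ℤ) + N 2).toNat.Prime)).card

lemma free_low (D D' n : ℕ) (hD : 1 ≤ D) (hD' : 1 ≤ D') : (n - 1) / (D * D') ≤ (Free D D' n).card := by
  obtain ⟨q, hq⟩ : ∃ q, q = D * D' := ⟨_, rfl⟩
  have hq1 : 1 ≤ q := by rw [hq]; exact Nat.mul_pos hD hD'
  rw [← hq]
  calc (n - 1) / q = (Icc 1 ((n - 1) / q)).card := by rw [Nat.card_Icc, Nat.add_sub_cancel]
    _ ≤ (Free D D' n).card := by
        apply card_le_card_of_injOn (fun i => q * i)
        · intro i hi
          rw [coe_Icc, Set.mem_Icc] at hi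
          have h1 : q ≤ q * i := Nat.le_mul_of_pos_right _ hi.1
          have h2 : q * i ≤ n - 1 := (Nat.mul_le_mul_left q hi.2).trans (Nat.mul_div_le _ _)
          unfold Free
          rw [coe_filter, Set.mem_ofPred_eq, mem_Icc]
          beta_reduce
          refine ⟨⟨by omega, h2⟩, ?_, ?_⟩
          · by_contra hcop
            obtain ⟨l, hlp, hla, hlb⟩ := Nat.Prime.not_coprime_iff_dvd.1 hcop
            have h3 : l ∣ 6 * (q * i) := ((hlb.trans (by rw [hq]; exact dvd_mul_right _ _)).mul_right i).mul_left 6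
            have h4 : l ∣ 6 * (q * i) - (6 * (q * i) - 1) := Nat.dvd_sub h3 hla
            have h5 : 6 * (q * i) - (6 * (q * i) - 1) = 1 := by omega
            rw [h5] at h4
            exact hlp.one_lt.ne' (Nat.dvd_one.1 h4)
          · by_contra hcop
            obtain ⟨l, hlp, hla, hlb⟩ := Nat.Prime.not_coprime_iff_dvd.1 hcop
            have h3 : l ∣ 6 * (q * i) := ((hlb.trans (by rw [hq]; exact dvd_mul_left _ _)).mul_right i).mul_left 6
            have h4 : l ∣ 6 * (q * i) + 1 - 6 * (q * i) := Nat.dvd_sub hla h3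
            have h5 : 6 * (q * i) + 1 - 6 * (q * i) = 1 := by omega
            rw [h5] at h4
            exact hlp.one_lt.ne' (Nat.dvd_one.1 h4)
        · intro i _ i' _ hii
          exact Nat.eq_of_mul_eq_mul_left hq1 hii

lemma cop_of {a D : ℕ} {N : ℤ} (ha : 1 ≤ a) (hN : 0 < N) (hDN : (D : ℤ) ∣ N) (hp : ((a : ℤ) + N).toNat.Prime) : a.Coprime D := by
  rw [add_comm] at hp
  exact Pool.Agent.Run7.h414.HL.cop_of ha hN hDN hp

/-- Let `b ≥ 2`, `L` and `η > 0`, and let `v j < b ^ d`, `j < 3`, be independent random integers with `d` determinantal digits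
in base `b` (`DetDigits b L η 0 d (μ j)`), let `y` be between `θ log d` and `K₁ log d` (`θ > 0` is arbitrary), `M` the
product of the primes `≤ y` (a power of `d` only), `|c j| ≤ B b ^ d`, `1 ≤ h j ≤ d ^ J`, `N_j = M h_j (c_j + κ_j v_j)`, and
let `n` be ANY integer with `b ^ d ≤ n d ^ C`, `n ≤ b ^ d d ^ C`. Let `F` be the set of the `1 ≤ k < n` such that `6 k - 1` is
prime to `M h_0` and `6 k + 1` is prime to `M h_1`. It has at least `n / d ^ (4 K₁ + 2 J + 1)` elements. Up to a probability of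
at most `ε`, if all `N_j > 0`, then the number of the splittings `n = k + m`, `k, m ≥ 1`, such that `6 k - 1 + N_0`,
`6 k + 1 + N_1` and `p_m + N_2` are prime differs from `E = #F / (V y log b ^ d) ^ 3` by at most `ε E`. -/
theorem result : ∀ b L : ℕ, 2 ≤ b → ∀ η : ℝ, 0 < η → ∀ (κ : Fin 3 → ℤ), (∀ j, κ j ≠ 0) →
    ∀ (B J C K₁ : ℕ) (θ : ℝ), 0 < θ → ∀ ε : ℝ, 0 < ε → ε ≤ 1 → ∃ d₀ : ℕ, ∀ d : ℕ, d₀ ≤ d →
    ∀ μ : Fin 3 → ℕ → ℝ, (∀ j, DetDigits b L η 0 d (μ j)) →
    ∀ y : ℕ, θ * Real.log d ≤ y → y ≤ K₁ * Real.log d →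
    ∀ c : Fin 3 → ℤ, (∀ j, |c j| ≤ B * (b : ℤ) ^ d) → ∀ h : Fin 3 → ℕ, (∀ j, 1 ≤ h j ∧ h j ≤ d ^ J) →
    ∀ n : ℕ, b ^ d ≤ n * d ^ C → n ≤ b ^ d * d ^ C →
      n ≤ (Free (primorial y * h 0) (primorial y * h 1) n).card * d ^ (4 * K₁ + 2 * J + 1) ∧
      ∑ v ∈ Fintype.piFinset (fun _ : Fin 3 => range (b ^ d)), (if (∀ j, 0 < Nv y (h j) (c j) (κ j) (v j)) →
        |Split n (fun j => Nv y (h j) (c j) (κ j) (v j)) -
            (Free (primorial y * h 0) (primorial y * h 1) n).card / (V y * (d * Real.log b)) ^ 3| ≤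
          ε * ((Free (primorial y * h 0) (primorial y * h 1) n).card / (V y * (d * Real.log b)) ^ 3)
        then 0 else ∏ j, μ j (v j)) ≤ ε := by
  classical
  intro b L hb η hη κ hκ B J C K₁ θ hθ ε hε hε1
  obtain ⟨k0, h0⟩ := det_tuple' b L hb η hη 3 κ hκ B J (4 * K₁ + 2 * J + 5) (C + 4) (2 * K₁ + J) K₁ θ hθ ε hε hε1
  obtain ⟨k1, h1⟩ := pr_le b C hb
  obtain ⟨k2, h2⟩ := Pool.Agent.N625.PT.X_large b C hb
  obtain ⟨k3, h3⟩ := Pool.Agent.N625.PT.pow_le_pow_digits b hb (4 * K₁ + 2 * J + 1 + C)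
  refine ⟨max (max k0 k1) (max (max k2 k3) 4), fun d hd μ hμ y hy1 hy2 c hc h hh n hn1 hn2 => ?_⟩
  have hd4 : 4 ≤ d := by omega
  have hdn := h2 d (by omega) n hn1
  have hpr := h1 d (by omega) n hn1 hn2
  have hbig := h3 d (by omega)
  have hD : ∀ j, 1 ≤ primorial y * h j ∧ primorial y * h j ≤ d ^ (2 * K₁ + J) := fun j =>
    ⟨Nat.mul_pos (primorial_pos y) (hh j).1, Pool.Agent.N625.PT.mult_small K₁ J d y (h j) (by omega) hy2 (hh j).2⟩
  have hnbig : d ^ (4 * K₁ + 2 * J + 1) ≤ n := by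
    have : d ^ (4 * K₁ + 2 * J + 1) * d ^ C ≤ n * d ^ C := by
      rw [← pow_add]
      exact hbig.trans hn1
    exact Nat.le_of_mul_le_mul_right this (pow_pos (by omega) _)
  obtain ⟨q, hq⟩ : ∃ q, q = (primorial y * h 0) * (primorial y * h 1) := ⟨_, rfl⟩
  have hq1 : 1 ≤ q := by rw [hq]; exact Nat.mul_pos (hD 0).1 (hD 1).1
  have hqd : q ≤ d ^ (4 * K₁ + 2 * J) := by
    rw [hq]
    calc (primorial y * h 0) * (primorial y * h 1) ≤ d ^ (2 * K₁ + J) * d ^ (2 * K₁ + J) := Nat.mul_le_mul (hD 0).2 (hD 1).2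
      _ = _ := by rw [← pow_add]; congr 1; ring
  obtain ⟨I, hI⟩ : ∃ I, I = Free (primorial y * h 0) (primorial y * h 1) n := ⟨_, rfl⟩
  have hlowI : (n - 1) / q ≤ I.card := by
    rw [hI, hq]
    exact free_low _ _ n (hD 0).1 (hD 1).1
  have hfree : n ≤ I.card * d ^ (4 * K₁ + 2 * J + 1) := by
    have g0 : 4 * q ≤ n := by
      calc 4 * q ≤ d * d ^ (4 * K₁ + 2 * J) := Nat.mul_le_mul hd4 hqd
        _ = d ^ (4 * K₁ + 2 * J + 1) := by rw [pow_succ]; ring
        _ ≤ n := hnbig
    have g1 : n - 1 < q * ((n - 1) / q) + q := Nat.lt_mul_div_succ _ hq1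
    have g2 : 1 ≤ (n - 1) / q := (Nat.one_le_div_iff hq1).2 (by omega)
    have g3 : q ≤ q * ((n - 1) / q) := Nat.le_mul_of_pos_right _ g2
    calc n ≤ 4 * (q * ((n - 1) / q)) := by omega
      _ ≤ 4 * (d ^ (4 * K₁ + 2 * J) * I.card) := Nat.mul_le_mul_left _ (Nat.mul_le_mul hqd hlowI)
      _ ≤ d * (d ^ (4 * K₁ + 2 * J) * I.card) := Nat.mul_le_mul_right _ hd4
      _ = _ := by rw [pow_succ]; ring
  rw [← hI]
  refine ⟨hfree, ?_⟩
  have hIm : ∀ k ∈ I, 1 ≤ k ∧ k ≤ n - 1 ∧ (6 * k - 1).Coprime (primorial y * h 0) ∧ (6 * k + 1).Coprime (primorial y * h 1) := by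
    intro k hk
    rw [hI] at hk
    unfold Free at hk
    rw [mem_filter, mem_Icc] at hk
    exact ⟨hk.1.1, hk.1.2, hk.2⟩
  obtain ⟨f, hf⟩ : ∃ f : Fin 3 → ℕ → ℕ, f = ![fun k => 6 * k - 1, fun k => 6 * k + 1, fun k => pr (n - k)] := ⟨_, rfl⟩
  have f0 : ∀ k, f 0 k = 6 * k - 1 := fun k => by rw [hf]; rfl
  have f1 : ∀ k, f 1 k = 6 * k + 1 := fun k => by rw [hf]; rfl
  have f2 : ∀ k, f 2 k = pr (n - k) := fun k => by rw [hf]; rfl
  have hinj2 : Set.InjOn (f 2) I := by
    intro k hk k' hk' hkk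
    have g1 := hIm k (by exact_mod_cast hk)
    have g2 := hIm k' (by exact_mod_cast hk')
    rw [f2, f2] at hkk
    have := pr_inj (by omega) (by omega) hkk
    omega
  have hinj : ∀ j, Set.InjOn (f j) I := by
    intro j
    fin_cases j
    · intro k hk k' hk' hkk
      have g1 := hIm k (by exact_mod_cast hk)
      have g2 := hIm k' (by exact_mod_cast hk')
      have hkk' : f 0 k = f 0 k' := hkk
      rw [f0, f0] at hkk'
      omega
    · intro k hk k' hk' hkk
      have hkk' : f 1 k = f 1 k' := hkk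
      rw [f1, f1] at hkk'
      omega
    · exact hinj2
  have hd16 : 7 ≤ d ^ 4 := by
    calc 7 ≤ 4 ^ 4 := by norm_num
      _ ≤ d ^ 4 := Nat.pow_le_pow_left hd4 4
  have hX : ∀ j, ∀ k ∈ I, 1 ≤ f j k ∧ f j k ≤ n * d ^ 4 := by
    intro j k hk
    obtain ⟨g1, g2, _⟩ := hIm k hk
    have g7 : n * 7 ≤ n * d ^ 4 := Nat.mul_le_mul_left _ hd16
    fin_cases j
    · show 1 ≤ f 0 k ∧ f 0 k ≤ n * d ^ 4
      rw [f0]
      omega
    · show 1 ≤ f 1 k ∧ f 1 k ≤ n * d ^ 4
      rw [f1]
      omega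
    · show 1 ≤ f 2 k ∧ f 2 k ≤ n * d ^ 4
      rw [f2]
      exact ⟨(pr_prime _).one_le, (hpr (n - k) (by omega)).1⟩
  have hbad : (I.filter (fun i => ∃ j, ¬ (f j i).Coprime (primorial y * h j))).card ≤ d ^ (2 * K₁ + J) := by
    calc (I.filter (fun i => ∃ j, ¬ (f j i).Coprime (primorial y * h j))).card
        ≤ (I.filter (fun i => ¬ (f 2 i).Coprime (primorial y * h 2))).card := by
          apply card_le_card
          intro i hi
          rw [mem_filter] at hi ⊢
          obtain ⟨g1, j, g2⟩ := hi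
          obtain ⟨_, _, g3, g4⟩ := hIm i g1
          refine ⟨g1, ?_⟩
          fin_cases j
          · exfalso
            apply g2
            show (f 0 i).Coprime (primorial y * h 0)
            rw [f0]
            exact g3
          · exfalso
            apply g2
            show (f 1 i).Coprime (primorial y * h 1)
            rw [f1]
            exact g4
          · exact g2
      _ ≤ primorial y * h 2 := bad_few I (f 2) hinj2 (fun i _ => by rw [f2]; exact pr_prime _) _ (hD 2).1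
      _ ≤ _ := (hD 2).2
  have hIA : n * d ^ 4 ≤ I.card * d ^ (4 * K₁ + 2 * J + 5) := by
    calc n * d ^ 4 ≤ (I.card * d ^ (4 * K₁ + 2 * J + 1)) * d ^ 4 := Nat.mul_le_mul_right _ hfree
      _ = _ := by rw [mul_assoc, ← pow_add]
  exact h0 d (by omega) μ hμ y hy1 hy2 c hc h hh (n * d ^ 4) (by
      calc b ^ d ≤ n * d ^ C := hn1
        _ ≤ (n * d ^ 4) * d ^ (C + 4) := by
            rw [mul_assoc]
            apply Nat.mul_le_mul_left
            rw [← pow_add]
            exact Nat.pow_le_pow_right (by omega) (by omega)) (by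
      calc n * d ^ 4 ≤ (b ^ d * d ^ C) * d ^ 4 := Nat.mul_le_mul_right _ hn2
        _ = _ := by rw [mul_assoc, ← pow_add]) I f hinj hX hbad hIA
    (fun v => |Split n (fun j => Nv y (h j) (c j) (κ j) (v j)) - I.card / (V y * (d * Real.log b)) ^ 3| ≤
          ε * (I.card / (V y * (d * Real.log b)) ^ 3)) (fun v hpos hv => by
    have hNm : ∀ j, Pool.Agent.N625.PT.Nm y (h j) (c j) (κ j) (v j) = Nv y (h j) (c j) (κ j) (v j) := fun _ => rfl
    have hDN : ∀ j, ((primorial y * h j : ℕ) : ℤ) ∣ Nv y (h j) (c j) (κ j) (v j) := fun j => by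
      unfold Nv
      exact dvd_mul_right _ _
    have e2 : ((I.filter (fun i => ∀ j : Fin 3, (Pool.Agent.N625.PT.Nm y (h j) (c j) (κ j) (v j) + (f j i : ℕ)).toNat.Prime)).card : ℝ) =
        Split n (fun j => Nv y (h j) (c j) (κ j) (v j)) := by
      unfold Split
      congr 2
      ext k
      rw [mem_filter, mem_filter, mem_Icc, Fin.forall_fin_succ, Fin.forall_fin_two, hNm, hNm, hNm]
      have q0 : 1 ≤ k → Nv y (h 0) (c 0) (κ 0) (v 0) + ((f 0 k : ℕ) : ℤ) = 6 * (k : ℤ) - 1 + Nv y (h 0) (c 0) (κ 0) (v 0) := by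
        intro hk
        rw [f0, Nat.cast_sub (by omega)]
        push_cast
        ring
      have q1 : Nv y (h 1) (c 1) (κ 1) (v 1) + ((f 1 k : ℕ) : ℤ) = 6 * (k : ℤ) + 1 + Nv y (h 1) (c 1) (κ 1) (v 1) := by
        rw [f1]
        push_cast
        ring
      have q2 : Nv y (h 2) (c 2) (κ 2) (v 2) + ((f 2 k : ℕ) : ℤ) = (p (n - k) : ℤ) + Nv y (h 2) (c 2) (κ 2) (v 2) := by
        rw [f2]
        exact add_comm _ _
      constructor
      · rintro ⟨g1, g2, g3, g4⟩
        obtain ⟨k1, k2, _⟩ := hIm k g1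
        have g3' : (Nv y (h 1) (c 1) (κ 1) (v 1) + ((f 1 k : ℕ) : ℤ)).toNat.Prime := g3
        have g4' : (Nv y (h 2) (c 2) (κ 2) (v 2) + ((f 2 k : ℕ) : ℤ)).toNat.Prime := g4
        rw [q0 k1] at g2
        rw [q1] at g3'
        rw [q2] at g4'
        exact ⟨⟨k1, k2⟩, g2, g3', g4'⟩
      · rintro ⟨⟨k1, k2⟩, g2, g3, g4⟩
        rw [← q0 k1] at g2
        rw [← q1] at g3
        rw [← q2] at g4
        refine ⟨?_, g2, g3, g4⟩
        rw [hI]
        unfold Free
        rw [mem_filter, mem_Icc]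
        refine ⟨⟨k1, k2⟩, ?_, ?_⟩
        · rw [← f0]
          exact cop_of (by rw [f0]; omega) (hpos 0) (hDN 0) (by rw [add_comm]; exact g2)
        · rw [← f1]
          exact cop_of (by rw [f1]; omega) (hpos 1) (hDN 1) (by rw [add_comm]; exact g3)
    rw [e2] at hv
    exact hv)

end Pool.Agent.Results.MP_ea8352_nt.DisplacedIndices
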