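import Pool.Agent.Run7.h844.RP.PwR7

/-!
# EVERY large `n = k + m`: `6 k - 1`, `6 k + 1 + N₀`, `p_m`, `p_m + N₁` prime, for multiples of values of generalised
polynomials at primes

Method: exponential sums over primes with the phase of a generalised polynomial: derivative bounds uniform in the
coefficients, van der Corput differencing of all orders, bilinear sums, Vaughan's identity (after `Pool.Agent.H895R3.NK`,
`Pool.Agent.H373R2.T7`), with a power saving at all frequencies up to a power, and a discrete Fejér kernel for the passage to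
the integer parts (library `Pool.Agent.Run7.h844.RP`). With this input the sieve
for classes of laws with small exponential sums (`Pool.Agent.N625.PT`, `Pool.Agent.Run7.h672.XC`) goes through.
-/

set_option autoImplicit false

open Finset

namespace Pool.Agent.Results.MP_ea8352_nt.ValuesAtPrimes

/-- The generalised polynomial `∑ a x * t ^ x`, `x ∈ F`, with real exponents and coefficients. -/
noncomputable def genPoly (F : Finset ℝ) (a : ℝ → ℝ) (t : ℝ) : ℝ := ∑ x ∈ F, a x * t ^ x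

/-- `c` is the largest exponent; it is positive and not an integer, and its coefficient is not zero. -/
def Leading (F : Finset ℝ) (a : ℝ → ℝ) (c : ℝ) : Prop :=
  c ∈ F ∧ (∀ x ∈ F, x ≤ c) ∧ 0 < c ∧ (∀ m : ℕ, c ≠ m) ∧ a c ≠ 0

/-- the product of `1 - 1/q` over the primes `q ≤ y` -/
noncomputable def V (y : ℕ) : ℝ := ∏ q ∈ (Icc 1 y).filter Nat.Prime, (1 - 1 / (q : ℝ))

/-- the multiple of the product of the primes `≤ y` given by the integers `h` and `w` -/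
def Nw (y h : ℕ) (w : ℤ) : ℤ := ((primorial y * h : ℕ) : ℤ) * w

/-- the `k`-th prime, `p 1 = 2` -/
noncomputable def p (k : ℕ) : ℕ := Nat.nth Nat.Prime (k - 1)

/-- the `k ∈ K`, `0 < k < n`, such that `6 k - 1` is prime and `6 k + 1`, `p_{n-k}` are prime to `D 0`, `D 1` -/
noncomputable def Adm (K : Finset ℕ) (D : Fin 2 → ℕ) (n : ℕ) : Finset ℕ :=
  K.filter (fun k => (0 < k ∧ k < n) ∧ (6 * k - 1).Prime ∧ (6 * k + 1).Coprime (D 0) ∧ (p (n - k)).Coprime (D 1))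

open Classical in
/-- the `k ∈ K`, `0 < k < n`, such that `6 k - 1`, `6 k + 1 + N 0` and `p_m + N 1` are prime, where `m = n - k` -/
noncomputable def Good (K : Finset ℕ) (n : ℕ) (N : Fin 2 → ℤ) : Finset ℕ :=
  K.filter (fun k => (0 < k ∧ k < n) ∧ (6 * k - 1).Prime ∧ (6 * (k : ℤ) + 1 + N 0).toNat.Prime ∧
    ((p (n - k) : ℤ) + N 1).toNat.Prime)

/-- the main term -/
noncomputable def Main (K : Finset ℕ) (y : ℕ) (h : Fin 2 → ℕ) (n M : ℕ) : ℝ :=
  (Adm K (fun j => primorial y * h j) n).card / (V y * Real.log M) ^ 2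

/-- The pair `w` is `ε`-good for `K`: if the multiples `N_j = h_j w_j ∏_{l ≤ y} l` are positive, then the number of the
`k ∈ K`, `0 < k < n`, such that `6 k - 1`, `6 k + 1 + N_0` and `p_m + N_1` are prime, `m = n - k`, differs from the main term by
at most `ε` times the main term. -/
def GoodFor (ε : ℝ) (K : Finset ℕ) (y : ℕ) (h : Fin 2 → ℕ) (n M : ℕ) (w : Fin 2 → ℤ) : Prop :=
  (∀ j, 0 < Nw y (h j) (w j)) →
    |((Good K n (fun j => Nw y (h j) (w j))).card : ℝ) - Main K y h n M| ≤ ε * Main K y h n M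

theorem nth_inj : Function.Injective (Nat.nth Nat.Prime) := Nat.nth_injective Nat.infinite_setOfPred_prime

/-- there are many admissible `k` -/
theorem adm_low (C K₁ J : ℕ) : ∃ M₀ : ℕ, ∀ M : ℕ, M₀ ≤ M → ∀ y : ℕ, (y : ℝ) ≤ K₁ * Real.log (Real.log M) →
    ∀ h : Fin 2 → ℕ, (∀ j, 1 ≤ h j ∧ (h j : ℝ) ≤ Real.log M ^ J) →
    ∀ n : ℕ, (M : ℝ) ≤ n * Real.log M ^ C → (n : ℝ) ≤ M * Real.log M ^ C →
    (n : ℝ) ≤ ((Adm (range n) (fun j => primorial y * h j) n).card : ℝ) * Real.log M ^ (2 * K₁ + J + 4) := by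
  obtain ⟨M₁, h1⟩ := Pool.Agent.Run7.h844.RP.ap_n C (2 * K₁ + J + 1) 1 6 le_rfl
  obtain ⟨M₂, h2⟩ := Pool.Agent.Run7.h844.RP.mult_le K₁ J
  obtain ⟨M₃, h3⟩ := Pool.Agent.Run7.h844.RP.scale_n C (2 * (2 * K₁ + J) + 6)
  refine ⟨max (max M₁ M₂) M₃, fun M hM y hy h hh n hx1 hx2 => ?_⟩
  have hD := fun j => h2 M (by omega) y hy (h j) (hh j).2
  obtain ⟨g1, g2⟩ := h3 M (by omega)
  obtain ⟨g3, -, -, g6⟩ := g2 n hx1 hx2
  have hap := h1 M (by omega) n hx1 hx2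
  obtain ⟨ℓ, hℓ⟩ : ∃ ℓ : ℝ, ℓ = Real.log M := ⟨_, rfl⟩
  rw [← hℓ] at g1 g6 hap ⊢
  simp only [← hℓ] at hD
  push_cast at g1
  have hK0 : (0 : ℝ) ≤ K₁ := Nat.cast_nonneg _
  have hJ0 : (0 : ℝ) ≤ J := Nat.cast_nonneg _
  have hℓ6 : 6 ≤ ℓ := by linarith
  have hDpos : ∀ j, 1 ≤ primorial y * h j := fun j => Nat.mul_pos (primorial_pos y) (hh j).1
  obtain ⟨D0, hD0⟩ : ∃ D0, D0 = primorial y * h 0 := ⟨_, rfl⟩
  obtain ⟨D1, hD1⟩ : ∃ D1, D1 = primorial y * h 1 := ⟨_, rfl⟩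
  have p0 := hDpos 0
  have p1 := hDpos 1
  have b0 := hD 0
  have b1 := hD 1
  rw [← hD0] at p0 b0
  rw [← hD1] at p1 b1
  obtain ⟨q, hq⟩ : ∃ q, q = 6 * D0 := ⟨_, rfl⟩
  obtain ⟨P, hP⟩ : ∃ P, P = (Ioc 0 (6 * n - 7)).filter (fun r : ℕ => r.Prime ∧ r ≡ q - 1 [MOD q]) := ⟨_, rfl⟩
  have h4 := hap q (by omega) (by
    rw [hq]
    push_cast
    calc 6 * (D0 : ℝ) ≤ ℓ * ℓ ^ (2 * K₁ + J) := mul_le_mul hℓ6 b0 (Nat.cast_nonneg _) (by linarith)
      _ = ℓ ^ (2 * K₁ + J + 1) := by ring) (q - 1) (by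
    have : (q - 1).Coprime (q - 1 + 1) := by simp
    rwa [Nat.sub_add_cancel (by omega)] at this) 0 (6 * n - 7) (by omega) (by omega) (by omega) (by omega)
  rw [← hP] at h4
  -- the elements of `P` are `6 k - 1`
  have hPk : ∀ r ∈ P, r.Prime ∧ 6 ∣ r + 1 ∧ q ∣ r + 1 ∧ r ≤ 6 * n - 7 := by
    intro r hr
    rw [hP, mem_filter, mem_Ioc] at hr
    obtain ⟨⟨-, r2⟩, r3, r4⟩ := hr
    have e1 : r + 1 ≡ q - 1 + 1 [MOD q] := r4.add_right 1
    rw [Nat.sub_add_cancel (by omega)] at e1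
    have e2 : q ∣ r + 1 := (Nat.modEq_zero_iff_dvd).1 (e1.trans ((Nat.modEq_zero_iff_dvd).2 dvd_rfl))
    exact ⟨r3, (Dvd.intro _ hq.symm).trans e2, e2, r2⟩
  have hbad := Pool.Agent.Run7.h844.RP.few_bad P (fun r => p (n - (r + 1) / 6)) (by
    intro r hr s hs hrs
    have a1 := hPk r (by exact_mod_cast hr)
    have a2 := hPk s (by exact_mod_cast hs)
    have a3 := nth_inj hrs
    obtain ⟨u, hu⟩ := a1.2.1
    obtain ⟨v, hv⟩ := a2.2.1
    omega) (fun r _ => Nat.prime_nth_prime _) D1 p1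
  have hinj : ((P.filter (fun r => (p (n - (r + 1) / 6)).Coprime D1)).card : ℕ) ≤
      (Adm (range n) (fun j => primorial y * h j) n).card := by
    apply card_le_card_of_injOn (fun r => (r + 1) / 6)
    · intro r hr
      rw [mem_coe, mem_filter] at hr
      obtain ⟨r1, r2⟩ := hr
      obtain ⟨a1, ⟨u, hu⟩, a3, a4⟩ := hPk r r1
      have hk : (r + 1) / 6 = u := by omega
      have hu1 : 0 < u := by omega
      simp only
      rw [hk] at r2 ⊢
      rw [mem_coe]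
      unfold Adm
      rw [mem_filter, mem_range]
      beta_reduce
      rw [← hD0, ← hD1]
      refine ⟨by omega, ⟨hu1, by omega⟩, ?_, ?_, r2⟩
      · have : 6 * u - 1 = r := by omega
        rw [this]
        exact a1
      · have e1 : D0 ∣ r + 1 := (Dvd.intro_left 6 hq.symm).trans a3
        have e2 : 6 * u + 1 = (r + 1) + 1 := by omega
        rw [e2]
        exact Nat.Coprime.coprime_dvd_right e1 (by simp)
    · intro r hr s hs hrs
      rw [mem_coe, mem_filter] at hr hs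
      obtain ⟨u, hu⟩ := (hPk r hr.1).2.1
      obtain ⟨v, hv⟩ := (hPk s hs.1).2.1
      simp only at hrs
      omega
  have hsum : P.card ≤ (Adm (range n) (fun j => primorial y * h j) n).card + D1 := by
    have e1 := card_filter_add_card_filter_not (s := P) (fun r => (p (n - (r + 1) / 6)).Coprime D1)
    omega
  obtain ⟨S, hS⟩ : ∃ S : ℝ, S = ((Adm (range n) (fun j => primorial y * h j) n).card : ℝ) := ⟨_, rfl⟩
  have hsumr : (P.card : ℝ) ≤ S + D1 := by rw [hS]; exact_mod_cast hsum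
  have hS0 : 0 ≤ S := by rw [hS]; exact Nat.cast_nonneg _
  rw [← hS]
  have hℓ0 : 0 < ℓ := by linarith
  have k1 : (n : ℝ) ≤ (S + ℓ ^ (2 * K₁ + J)) * ℓ ^ (2 * K₁ + J + 1 + 2) := by
    refine h4.trans (mul_le_mul_of_nonneg_right (by linarith) (by positivity))
  have k2 : 2 * (ℓ ^ (2 * K₁ + J) * ℓ ^ (2 * K₁ + J + 1 + 2)) ≤ n := by
    calc 2 * (ℓ ^ (2 * K₁ + J) * ℓ ^ (2 * K₁ + J + 1 + 2)) ≤ ℓ * (ℓ ^ (2 * K₁ + J) * ℓ ^ (2 * K₁ + J + 1 + 2)) :=
          mul_le_mul_of_nonneg_right (by linarith) (by positivity)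
      _ = ℓ ^ (1 + (2 * K₁ + J) + (2 * K₁ + J + 1 + 2)) := by ring
      _ ≤ ℓ ^ (2 * (2 * K₁ + J) + 6) := pow_le_pow_right₀ (by linarith) (by omega)
      _ ≤ n := g6
  have k3 : (n : ℝ) ≤ 2 * (S * ℓ ^ (2 * K₁ + J + 1 + 2)) := by linarith
  calc (n : ℝ) ≤ 2 * (S * ℓ ^ (2 * K₁ + J + 1 + 2)) := k3
    _ ≤ ℓ * (S * ℓ ^ (2 * K₁ + J + 1 + 2)) := mul_le_mul_of_nonneg_right (by linarith) (by positivity)
    _ = S * ℓ ^ (2 * K₁ + J + 4) := by ring

open Classical in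
/-- Let `g_j(t) = ∑ b_j x t ^ x`, `j < 2`, be generalised polynomials (real exponents and coefficients) whose largest exponents
`e_j` are positive and not integers. Let `M` be large, `X_j ^ e_j log M ≤ M ≤ X_j ^ e_j log ^ W M`, `|z_j|, |c_j| ≤ B M`
(`z_j` real, `c_j` an integer), let `y` be between `θ log log M` and `K₁ log log M` (`θ > 0` is arbitrary),
`1 ≤ h_j ≤ log ^ J M`, and let `n` be ANY integer with `M ≤ n log ^ C M`, `n ≤ M log ^ C M`. There are at least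
`n / log ^ (2 K₁ + J + 4) M` integers `0 < k < n` such that `6 k - 1` is prime, `6 k + 1` is prime to `h_0 ∏_{l ≤ y} l` and
`p_{n-k}` is prime to `h_1 ∏_{l ≤ y} l` (`l` prime). Let `K` be ANY set of integers for which the number `A_K` of its elements
with these properties is at least `n / log ^ A M`. For all the pairs of primes `(q_0, q_1)`, `X_j < q_j ≤ 2 X_j`, up to a
proportion `ε`, with `N_j = h_j (c_j + κ_j ⌊g_j(q_j) + z_j⌋) ∏_{l ≤ y} l`: if `N_0, N_1 > 0`, then the number of ALL the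
`k ∈ K`, `0 < k < n`, such that `6 k - 1`, `6 k + 1 + N_0` and `p_m + N_1` are prime, `m = n - k`, differs from
`E = A_K / (V y log M) ^ 2` by at most `ε E`. -/
theorem result (F : Fin 2 → Finset ℝ) (b : Fin 2 → ℝ → ℝ) (e : Fin 2 → ℝ) (hF : ∀ j, Leading (F j) (b j) (e j))
    (κ : Fin 2 → ℤ) (hκ : ∀ j, κ j ≠ 0) (B J A C K₁ W : ℕ) (θ : ℝ)
    (hθ : 0 < θ) (ε : ℝ) (hε : 0 < ε) (hε1 : ε ≤ 1) : ∃ M₀ : ℕ, ∀ M : ℕ, M₀ ≤ M →
    ∀ X : Fin 2 → ℕ, (∀ j, (X j : ℝ) ^ (e j) * Real.log M ≤ M ∧ (M : ℝ) ≤ (X j : ℝ) ^ (e j) * Real.log M ^ W) →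
    ∀ (z : Fin 2 → ℝ) (c : Fin 2 → ℤ), (∀ j, |z j| ≤ B * M ∧ |c j| ≤ B * M) →
    ∀ y : ℕ, θ * Real.log (Real.log M) ≤ y → y ≤ K₁ * Real.log (Real.log M) →
    ∀ h : Fin 2 → ℕ, (∀ j, 1 ≤ h j ∧ (h j : ℝ) ≤ Real.log M ^ J) →
    ∀ n : ℕ, (M : ℝ) ≤ n * Real.log M ^ C → (n : ℝ) ≤ M * Real.log M ^ C →
    (n : ℝ) ≤ ((Adm (range n) (fun j => primorial y * h j) n).card : ℝ) * Real.log M ^ (2 * K₁ + J + 4) ∧
    ∀ K : Finset ℕ, (n : ℝ) ≤ (Adm K (fun j => primorial y * h j) n).card * Real.log M ^ A →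
      (((Fintype.piFinset fun j => (Ioc (X j) (2 * X j)).filter Nat.Prime).filter fun q : Fin 2 → ℕ =>
          ¬ GoodFor ε K y h n M (fun j => c j + κ j * ⌊genPoly (F j) (b j) (q j) + z j⌋)).card : ℝ) ≤
        ε * ∏ j, (((Ioc (X j) (2 * X j)).filter Nat.Prime).card : ℝ) := by
  choose hcF hmax hc hn hb using hF
  obtain ⟨M₁, h1⟩ := Pool.Agent.Run7.h844.RP.tup_prK 2 F b e hcF hn hc hmax hb κ hκ B J A C 3 K₁ W θ hθ ε hε hε1
  obtain ⟨M₂, h2⟩ := Pool.Agent.Run7.h844.RP.nth_M C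
  obtain ⟨M₃, h3⟩ := Pool.Agent.Run7.h844.RP.logM_ge 7
  obtain ⟨M₄, h4⟩ := adm_low C K₁ J
  refine ⟨max (max M₁ M₂) (max M₃ M₄), fun M hM X hX z c hzc y hy1 hy2 h hh n hx1 hx2 =>
    ⟨h4 M (by omega) y hy2 h hh n hx1 hx2, fun K hKc => ?_⟩⟩
  have hnth := h2 M (by omega) n hx1 hx2
  have hl7 := h3 M (by omega)
  have hDpos : ∀ j, 1 ≤ primorial y * h j := fun j => Nat.mul_pos (primorial_pos y) (hh j).1
  obtain ⟨I, hI⟩ : ∃ I, I = Adm K (fun j => primorial y * h j) n := ⟨_, rfl⟩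
  have hmemI : ∀ k ∈ I, (0 < k ∧ k < n) ∧ (6 * k - 1).Prime ∧ (6 * k + 1).Coprime (primorial y * h 0) ∧
      (p (n - k)).Coprime (primorial y * h 1) := by
    intro k hk
    rw [hI] at hk
    exact (mem_filter.1 hk).2
  obtain ⟨f, hf⟩ : ∃ f : Fin 2 → ℕ → ℕ, f = ![fun k => 6 * k + 1, fun k => p (n - k)] := ⟨_, rfl⟩
  have hf0 : ∀ k, f 0 k = 6 * k + 1 := fun k => by rw [hf]; rfl
  have hf1 : ∀ k, f 1 k = p (n - k) := fun k => by rw [hf]; rfl
  have hn0 : (0 : ℝ) ≤ n := Nat.cast_nonneg n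
  have h5 := h1 M (by omega) X hX z c hzc y hy1 hy2 h hh n hx1 hx2 I f (by
      intro j k hk l hl hkl
      have hk' := hmemI k (by exact_mod_cast hk)
      have hl' := hmemI l (by exact_mod_cast hl)
      fin_cases j
      · have : f 0 k = f 0 l := hkl
        rw [hf0, hf0] at this
        omega
      · have : f 1 k = f 1 l := hkl
        rw [hf1, hf1] at this
        have := nth_inj this
        omega) (by
      intro j k hk
      obtain ⟨⟨a1, a2⟩, a3, a4, a5⟩ := hmemI k hk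
      fin_cases j
      · show 1 ≤ f 0 k ∧ (f 0 k : ℝ) ≤ n * Real.log M ^ 3 ∧ (f 0 k).Coprime (primorial y * h 0)
        rw [hf0]
        refine ⟨by omega, ?_, a4⟩
        have e1 : ((6 * k + 1 : ℕ) : ℝ) ≤ n * 7 := by exact_mod_cast (by omega : 6 * k + 1 ≤ n * 7)
        refine e1.trans (mul_le_mul_of_nonneg_left ?_ hn0)
        calc (7 : ℝ) ≤ Real.log M ^ 1 := by rw [pow_one]; exact hl7
          _ ≤ Real.log M ^ 3 := pow_le_pow_right₀ (by linarith) (by norm_num)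
      · show 1 ≤ f 1 k ∧ (f 1 k : ℝ) ≤ n * Real.log M ^ 3 ∧ (f 1 k).Coprime (primorial y * h 1)
        rw [hf1]
        exact ⟨(Nat.prime_nth_prime _).one_le, (hnth (n - k - 1) (by omega)).1, a5⟩) (by rw [hI]; exact hKc)
  refine le_trans ?_ h5
  apply Nat.cast_le.2
  apply card_le_card
  intro q hq
  rw [mem_filter] at hq ⊢
  refine ⟨hq.1, fun hT => hq.2 fun hpos => ?_⟩
  have h6 := hT hpos
  have hset : Good K n (fun j => Nw y (h j) (c j + κ j * ⌊genPoly (F j) (b j) (q j) + z j⌋)) =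
      I.filter (fun i => ∀ j : Fin 2, (Pool.Agent.Run7.h844.RP.NmW y (h j) (c j + κ j *
        Pool.Agent.Run7.h844.RP.vz (F j) (b j) (z j) (q j)) + (f j i : ℕ)).toNat.Prime) := by
    ext k
    unfold Good
    rw [mem_filter, mem_filter, Fin.forall_fin_two, hf0, hf1, hI]
    unfold Adm
    rw [mem_filter]
    have e1 : (6 * (k : ℤ) + 1 + Nw y (h 0) (c 0 + κ 0 * ⌊genPoly (F 0) (b 0) (q 0) + z 0⌋)) =
        Pool.Agent.Run7.h844.RP.NmW y (h 0) (c 0 + κ 0 * Pool.Agent.Run7.h844.RP.vz (F 0) (b 0) (z 0) (q 0)) +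
          ((6 * k + 1 : ℕ) : ℤ) := by
      push_cast
      rw [add_comm]
      rfl
    have e2 : ((p (n - k) : ℤ) + Nw y (h 1) (c 1 + κ 1 * ⌊genPoly (F 1) (b 1) (q 1) + z 1⌋)) =
        Pool.Agent.Run7.h844.RP.NmW y (h 1) (c 1 + κ 1 * Pool.Agent.Run7.h844.RP.vz (F 1) (b 1) (z 1) (q 1)) +
          ((p (n - k) : ℕ) : ℤ) := by
      rw [add_comm]
      rfl
    constructor
    · rintro ⟨g1, g2, g3, g4, g5⟩
      rw [e1] at g4
      rw [e2] at g5
      exact ⟨⟨g1, g2, g3, Pool.Agent.Run7.h844.RP.cop_of (by omega) (hDpos 0) (hpos 0)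
        (Dvd.intro _ rfl) g4,
        Pool.Agent.Run7.h844.RP.cop_of (Nat.prime_nth_prime _).one_le (hDpos 1) (hpos 1)
        (Dvd.intro _ rfl) g5⟩, g4, g5⟩
    · rintro ⟨⟨g1, g2, g3, -⟩, g4, g5⟩
      rw [← e1] at g4
      rw [← e2] at g5
      exact ⟨g1, g2, g3, g4, g5⟩
  have hmain : Main K y h n M = I.card / (Pool.Agent.H373R2.T7.Vz y * Real.log M) ^ 2 := by
    unfold Main
    rw [← hI]
    rfl
  rw [hset, hmain]
  exact h6

end Pool.Agent.Results.MP_ea8352_nt.ValuesAtPrimes
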