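import Pool.Agent.Run7.h672.WT.G

/-!
# EVERY large `n`: the number of the splittings `n = k + m`, `k` in an ARBITRARY dense set, with `6 k - 1 + N₀`, `6 k + 1 + N₁`
# and `p_m + N₂` prime, where the `N_j` are multiples of random integers written by independent random words

The definitions `len`, `Words`, `cat`, `noRest`, `cutWord`, `WordLaw` are in `Pool.Agent.Run7.h672.CC.Defs`.

Method: a strong renewal theorem for the places at which a word ends; between two such places, at a positive proportion of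
the places, two words which do not commute can be exchanged (`w w'` and `w' w` have the same length, the same probability,
and different digits), whatever the language is; hence the characteristic function is exponentially small in the number of the
places at which the frequency is not close to a rational number with a small denominator (`Pool.Agent.Run7.h672.CC`). With this
input the sieve and the circle method of the starting library for exchangeable blocks (`Pool.Agent.N625.PT`) go through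
(`Pool.Agent.Run7.h672.XC`). The application to this problem follows `DisplacedIndices` (helper414).
-/

set_option autoImplicit false

open Finset
open Pool.Agent.Run7.h672.CC
open Pool.Agent.Run7.h672.WT (cls_tuple' bad_few pr pr_prime pr_lt pr_strict pr_inj pr_le)

namespace Pool.Agent.Results.MP_ea8352_nt.WordIndices

/-- the `j`-th prime, `j ≥ 1` -/
noncomputable def p (j : ℕ) : ℕ := Nat.nth Nat.Prime (j - 1)

/-- the product of `1 - 1/q` over the primes `q ≤ y` -/
noncomputable def V (y : ℕ) : ℝ := ∏ q ∈ (Icc 1 y).filter Nat.Prime, (1 - 1 / (q : ℝ))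

/-- the multiple of the product of the primes `≤ y` given by the integers `h` and `c + κ v` -/
def Nv (y h : ℕ) (c κ : ℤ) (v : ℕ) : ℤ := ((primorial y * h : ℕ) : ℤ) * (c + κ * v)

/-- the `k` in `K` such that `6 k - 1` is prime to `D` and `6 k + 1` is prime to `D'` -/
def Free (D D' : ℕ) (K : Finset ℕ) : Finset ℕ := K.filter (fun k : ℕ => (6 * k - 1).Coprime D ∧ (6 * k + 1).Coprime D')

/-- the number of the splittings `n = k + m`, `k` in `K`, such that `6 k - 1 + N 0`, `6 k + 1 + N 1` and `p_m + N 2` are prime -/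
noncomputable def Split (n : ℕ) (K : Finset ℕ) (N : Fin 3 → ℤ) : ℝ :=
  (K.filter (fun k : ℕ => (6 * (k : ℤ) - 1 + N 0).toNat.Prime ∧ (6 * (k : ℤ) + 1 + N 1).toNat.Prime ∧
    ((p (n - k) : ℤ) + N 2).toNat.Prime)).card

lemma free_low (D D' n : ℕ) (hD : 1 ≤ D) (hD' : 1 ≤ D') : (n - 1) / (D * D') ≤ (Free D D' (Icc 1 (n - 1))).card := by
  obtain ⟨q, hq⟩ : ∃ q, q = D * D' := ⟨_, rfl⟩
  have hq1 : 1 ≤ q := by rw [hq]; exact Nat.mul_pos hD hD'
  rw [← hq]
  calc (n - 1) / q = (Icc 1 ((n - 1) / q)).card := by rw [Nat.card_Icc, Nat.add_sub_cancel]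
    _ ≤ (Free D D' (Icc 1 (n - 1))).card := by
        apply card_le_card_of_injOn (fun i => q * i)
        · intro i hi
          rw [coe_Icc, Set.mem_Icc] at hi
          have h1 : q ≤ q * i := Nat.le_mul_of_pos_right _ hi.1
          have h2 : q * i ≤ n - 1 := (Nat.mul_le_mul_left q hi.2).trans (Nat.mul_div_le _ _)
          unfold Free
          rw [coe_filter, Set.mem_ofPred_eq, mem_Icc]
          beta_reduce
          refine ⟨⟨by omega, h2⟩, ?_, ?_⟩
          · by_contra hcop
            obtain ⟨l, hlp, hla, hlb⟩ := Nat.Prime.not_coprime_iff_dvd.1 hcop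
            have h3 : l ∣ 6 * (q * i) := ((hlb.trans (by rw [hq]; exact dvd_mul_right _ _)).mul_right i).mul_left 6
            have h4 : l ∣ 6 * (q * i) - (6 * (q * i) - 1) := Nat.dvd_sub h3 hla
            have h5 : 6 * (q * i) - (6 * (q * i) - 1) = 1 := by omega
            rw [h5] at h4
            exact hlp.one_lt.ne' (Nat.dvd_one.1 h4)
          · by_contra hcop
            obtain ⟨l, hlp, hla, hlb⟩ := Nat.Prime.not_coprime_iff_dvd.1 hcop
            have h3 : l ∣ 6 * (q * i) := ((hlb.trans (by rw [hq]; exact dvd_mul_left _ _)).mul_right i).mul_left 6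
            have h4 : l ∣ 6 * (q * i) + 1 - 6 * (q * i) := Nat.dvd_sub hla h3
            have h5 : 6 * (q * i) + 1 - 6 * (q * i) = 1 := by omega
            rw [h5] at h4
            exact hlp.one_lt.ne' (Nat.dvd_one.1 h4)
        · intro i _ i' _ hii
          exact Nat.eq_of_mul_eq_mul_left hq1 hii

lemma cop_of {a D : ℕ} {N : ℤ} (ha : 1 ≤ a) (hN : 0 < N) (hDN : (D : ℤ) ∣ N) (hp : ((a : ℤ) + N).toNat.Prime) : a.Coprime D := by
  rw [add_comm] at hp
  by_contra hcop
  obtain ⟨q, hqp, hqa, hqb⟩ := Nat.Prime.not_coprime_iff_dvd.1 hcop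
  have f1 : (q : ℤ) ∣ N + (a : ℤ) := dvd_add ((by exact_mod_cast hqb : (q : ℤ) ∣ (D : ℤ)).trans hDN) (by exact_mod_cast hqa)
  have f0 : (1 : ℤ) ≤ a := by exact_mod_cast ha
  have f2 : (0 : ℤ) ≤ N + (a : ℤ) := by linarith
  have f3 : q ∣ (N + (a : ℤ)).toNat := by
    rw [← Int.natCast_dvd_natCast, Int.toNat_of_nonneg f2]
    exact f1
  have f4 := (Nat.prime_dvd_prime_iff_eq hqp hp).1 f3
  have f6 : (D : ℤ) ≤ N := Int.le_of_dvd hN hDN
  have f8 : 0 < D := by
    rcases Nat.eq_zero_or_pos D with h | h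
    · rw [h] at hDN
      have := (zero_dvd_iff.1 (by exact_mod_cast hDN : (0 : ℤ) ∣ N))
      omega
    · exact h
  have f5 : (q : ℤ) ≤ D := by exact_mod_cast Nat.le_of_dvd f8 hqb
  have f7 : (q : ℤ) = N + (a : ℤ) := by rw [f4, Int.toNat_of_nonneg f2]
  linarith

/-- Let `W` be the law of a random word in base `b` (`Words b W`: any language, finite or infinite, lengths with an
exponential moment and without a common divisor, and two words which do not commute). Let `v j < b ^ d`, `j < 3`, be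
independent random integers whose digits are written by independent random words with the law `W`, conditioned on the total
length `d`, or cut after `d` digits (`WordLaw b W d (μ j)`), let `y` be between `θ log d` and `K₁ log d` (`θ > 0` is arbitrary),
`M` the product of the primes `≤ y` (a power of `d` only), `|c j| ≤ B b ^ d`, `1 ≤ h j ≤ d ^ J`, `N_j = M h_j (c_j + κ_j v_j)`,
and let `n` be ANY integer with `b ^ d ≤ n d ^ C`, `n ≤ b ^ d d ^ C`. For a set `K` of integers `1 ≤ k < n` let `F K` be the set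
of the `k` in `K` such that `6 k - 1` is prime to `M h_0` and `6 k + 1` is prime to `M h_1`. For the set of all `1 ≤ k < n` it
has at least `n / d ^ (4 K₁ + 2 J + 1)` elements. Let `K` be ANY set of `1 ≤ k < n` such that `F K` has at least `n / d ^ A`
elements. Up to a probability of at most `ε`, if all `N_j > 0`, then the number of the splittings `n = k + m`, `k` in `K`, such
that `6 k - 1 + N_0`, `6 k + 1 + N_1` and `p_m + N_2` are prime differs from `E = #(F K) / (V y log b ^ d) ^ 3` by at most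
`ε E`. -/
theorem result : ∀ (b : ℕ) (W : ℕ → ℕ → ℝ), Words b W → ∀ (κ : Fin 3 → ℤ), (∀ j, κ j ≠ 0) →
    ∀ (B J A C K₁ : ℕ) (θ : ℝ), 0 < θ → ∀ ε : ℝ, 0 < ε → ε ≤ 1 → ∃ d₀ : ℕ, ∀ d : ℕ, d₀ ≤ d →
    ∀ μ : Fin 3 → ℕ → ℝ, (∀ j, WordLaw b W d (μ j)) →
    ∀ y : ℕ, θ * Real.log d ≤ y → y ≤ K₁ * Real.log d →
    ∀ c : Fin 3 → ℤ, (∀ j, |c j| ≤ B * (b : ℤ) ^ d) → ∀ h : Fin 3 → ℕ, (∀ j, 1 ≤ h j ∧ h j ≤ d ^ J) →
    ∀ n : ℕ, b ^ d ≤ n * d ^ C → n ≤ b ^ d * d ^ C →
      n ≤ (Free (primorial y * h 0) (primorial y * h 1) (Icc 1 (n - 1))).card * d ^ (4 * K₁ + 2 * J + 1) ∧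
      ∀ K : Finset ℕ, K ⊆ Icc 1 (n - 1) → n ≤ (Free (primorial y * h 0) (primorial y * h 1) K).card * d ^ A →
      ∑ v ∈ Fintype.piFinset (fun _ : Fin 3 => range (b ^ d)), (if (∀ j, 0 < Nv y (h j) (c j) (κ j) (v j)) →
        |Split n K (fun j => Nv y (h j) (c j) (κ j) (v j)) -
            (Free (primorial y * h 0) (primorial y * h 1) K).card / (V y * (d * Real.log b)) ^ 3| ≤
          ε * ((Free (primorial y * h 0) (primorial y * h 1) K).card / (V y * (d * Real.log b)) ^ 3)
        then 0 else ∏ j, μ j (v j)) ≤ ε := by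
  classical
  intro b W hW κ hκ B J A C K₁ θ hθ ε hε hε1
  obtain ⟨L, T, hcls⟩ := Pool.Agent.Run7.h672.XC.word_rcls hW
  have hb := hW.two
  obtain ⟨k0, h0⟩ := cls_tuple' hcls 3 κ hκ B J (A + 4) (C + 4) (2 * K₁ + J) K₁ θ hθ ε hε hε1
  obtain ⟨k1, h1⟩ := pr_le b C hb
  obtain ⟨k2, h2⟩ := Pool.Agent.N625.PT.X_large b C hb
  obtain ⟨k3, h3⟩ := Pool.Agent.N625.PT.pow_le_pow_digits b hb (4 * K₁ + 2 * J + 1 + C)
  refine ⟨max (max k0 k1) (max (max k2 k3) 4), fun d hd μ hμ y hy1 hy2 c hc h hh n hn1 hn2 => ?_⟩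
  have hd4 : 4 ≤ d := by omega
  have hdn := h2 d (by omega) n hn1
  have hpr := h1 d (by omega) n hn1 hn2
  have hbig := h3 d (by omega)
  have hD : ∀ j, 1 ≤ primorial y * h j ∧ primorial y * h j ≤ d ^ (2 * K₁ + J) := fun j =>
    ⟨Nat.mul_pos (primorial_pos y) (hh j).1, Pool.Agent.N625.PT.mult_small K₁ J d y (h j) (by omega) hy2 (hh j).2⟩
  have hnbig : d ^ (4 * K₁ + 2 * J + 1) ≤ n := by
    have : d ^ (4 * K₁ + 2 * J + 1) * d ^ C ≤ n * d ^ C := by
      rw [← pow_add]
      exact hbig.trans hn1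
    exact Nat.le_of_mul_le_mul_right this (pow_pos (by omega) _)
  obtain ⟨q, hq⟩ : ∃ q, q = (primorial y * h 0) * (primorial y * h 1) := ⟨_, rfl⟩
  have hq1 : 1 ≤ q := by rw [hq]; exact Nat.mul_pos (hD 0).1 (hD 1).1
  have hqd : q ≤ d ^ (4 * K₁ + 2 * J) := by
    rw [hq]
    calc (primorial y * h 0) * (primorial y * h 1) ≤ d ^ (2 * K₁ + J) * d ^ (2 * K₁ + J) := Nat.mul_le_mul (hD 0).2 (hD 1).2
      _ = _ := by rw [← pow_add]; congr 1; ring
  obtain ⟨I₀, hI₀⟩ : ∃ I₀, I₀ = Free (primorial y * h 0) (primorial y * h 1) (Icc 1 (n - 1)) := ⟨_, rfl⟩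
  have hlowI : (n - 1) / q ≤ I₀.card := by
    rw [hI₀, hq]
    exact free_low _ _ n (hD 0).1 (hD 1).1
  have hfree : n ≤ I₀.card * d ^ (4 * K₁ + 2 * J + 1) := by
    have g0 : 4 * q ≤ n := by
      calc 4 * q ≤ d * d ^ (4 * K₁ + 2 * J) := Nat.mul_le_mul hd4 hqd
        _ = d ^ (4 * K₁ + 2 * J + 1) := by rw [pow_succ]; ring
        _ ≤ n := hnbig
    have g1 : n - 1 < q * ((n - 1) / q) + q := Nat.lt_mul_div_succ _ hq1
    have g2 : 1 ≤ (n - 1) / q := (Nat.one_le_div_iff hq1).2 (by omega)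
    have g3 : q ≤ q * ((n - 1) / q) := Nat.le_mul_of_pos_right _ g2
    calc n ≤ 4 * (q * ((n - 1) / q)) := by omega
      _ ≤ 4 * (d ^ (4 * K₁ + 2 * J) * I₀.card) := Nat.mul_le_mul_left _ (Nat.mul_le_mul hqd hlowI)
      _ ≤ d * (d ^ (4 * K₁ + 2 * J) * I₀.card) := Nat.mul_le_mul_right _ hd4
      _ = _ := by rw [pow_succ]; ring
  rw [← hI₀]
  refine ⟨hfree, fun K hK hKA => ?_⟩
  obtain ⟨I, hI⟩ : ∃ I, I = Free (primorial y * h 0) (primorial y * h 1) K := ⟨_, rfl⟩
  rw [← hI] at hKA ⊢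
  have hIm : ∀ k ∈ I, 1 ≤ k ∧ k ≤ n - 1 ∧ (6 * k - 1).Coprime (primorial y * h 0) ∧ (6 * k + 1).Coprime (primorial y * h 1) := by
    intro k hk
    rw [hI] at hk
    unfold Free at hk
    rw [mem_filter] at hk
    have := mem_Icc.1 (hK hk.1)
    exact ⟨this.1, this.2, hk.2⟩
  obtain ⟨f, hf⟩ : ∃ f : Fin 3 → ℕ → ℕ, f = ![fun k => 6 * k - 1, fun k => 6 * k + 1, fun k => pr (n - k)] := ⟨_, rfl⟩
  have f0 : ∀ k, f 0 k = 6 * k - 1 := fun k => by rw [hf]; rfl
  have f1 : ∀ k, f 1 k = 6 * k + 1 := fun k => by rw [hf]; rfl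
  have f2 : ∀ k, f 2 k = pr (n - k) := fun k => by rw [hf]; rfl
  have hinj2 : Set.InjOn (f 2) I := by
    intro k hk k' hk' hkk
    have g1 := hIm k (by exact_mod_cast hk)
    have g2 := hIm k' (by exact_mod_cast hk')
    rw [f2, f2] at hkk
    have := pr_inj (by omega) (by omega) hkk
    omega
  have hinj : ∀ j, Set.InjOn (f j) I := by
    intro j
    fin_cases j
    · intro k hk k' hk' hkk
      have g1 := hIm k (by exact_mod_cast hk)
      have g2 := hIm k' (by exact_mod_cast hk')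
      have hkk' : f 0 k = f 0 k' := hkk
      rw [f0, f0] at hkk'
      omega
    · intro k hk k' hk' hkk
      have hkk' : f 1 k = f 1 k' := hkk
      rw [f1, f1] at hkk'
      omega
    · exact hinj2
  have hd16 : 7 ≤ d ^ 4 := by
    calc 7 ≤ 4 ^ 4 := by norm_num
      _ ≤ d ^ 4 := Nat.pow_le_pow_left hd4 4
  have hX : ∀ j, ∀ k ∈ I, 1 ≤ f j k ∧ f j k ≤ n * d ^ 4 := by
    intro j k hk
    obtain ⟨g1, g2, _⟩ := hIm k hk
    have g7 : n * 7 ≤ n * d ^ 4 := Nat.mul_le_mul_left _ hd16
    fin_cases j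
    · show 1 ≤ f 0 k ∧ f 0 k ≤ n * d ^ 4
      rw [f0]
      omega
    · show 1 ≤ f 1 k ∧ f 1 k ≤ n * d ^ 4
      rw [f1]
      omega
    · show 1 ≤ f 2 k ∧ f 2 k ≤ n * d ^ 4
      rw [f2]
      exact ⟨(pr_prime _).one_le, (hpr (n - k) (by omega)).1⟩
  have hbad : (I.filter (fun i => ∃ j, ¬ (f j i).Coprime (primorial y * h j))).card ≤ d ^ (2 * K₁ + J) := by
    calc (I.filter (fun i => ∃ j, ¬ (f j i).Coprime (primorial y * h j))).card
        ≤ (I.filter (fun i => ¬ (f 2 i).Coprime (primorial y * h 2))).card := by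
          apply card_le_card
          intro i hi
          rw [mem_filter] at hi ⊢
          obtain ⟨g1, j, g2⟩ := hi
          obtain ⟨_, _, g3, g4⟩ := hIm i g1
          refine ⟨g1, ?_⟩
          fin_cases j
          · exfalso
            apply g2
            show (f 0 i).Coprime (primorial y * h 0)
            rw [f0]
            exact g3
          · exfalso
            apply g2
            show (f 1 i).Coprime (primorial y * h 1)
            rw [f1]
            exact g4
          · exact g2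
      _ ≤ primorial y * h 2 := bad_few I (f 2) hinj2 (fun i _ => by rw [f2]; exact pr_prime _) _ (hD 2).1
      _ ≤ _ := (hD 2).2
  have hIA : n * d ^ 4 ≤ I.card * d ^ (A + 4) := by
    calc n * d ^ 4 ≤ (I.card * d ^ A) * d ^ 4 := Nat.mul_le_mul_right _ hKA
      _ = _ := by rw [mul_assoc, ← pow_add]
  exact h0 d (by omega) μ hμ y hy1 hy2 c hc h hh (n * d ^ 4) (by
      calc b ^ d ≤ n * d ^ C := hn1
        _ ≤ (n * d ^ 4) * d ^ (C + 4) := by
            rw [mul_assoc]
            apply Nat.mul_le_mul_left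
            rw [← pow_add]
            exact Nat.pow_le_pow_right (by omega) (by omega)) (by
      calc n * d ^ 4 ≤ (b ^ d * d ^ C) * d ^ 4 := Nat.mul_le_mul_right _ hn2
        _ = _ := by rw [mul_assoc, ← pow_add]) I f hinj hX hbad hIA
    (fun v => |Split n K (fun j => Nv y (h j) (c j) (κ j) (v j)) - I.card / (V y * (d * Real.log b)) ^ 3| ≤
          ε * (I.card / (V y * (d * Real.log b)) ^ 3)) (fun v hpos hv => by
    have hNm : ∀ j, Pool.Agent.N625.PT.Nm y (h j) (c j) (κ j) (v j) = Nv y (h j) (c j) (κ j) (v j) := fun _ => rfl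
    have hDN : ∀ j, ((primorial y * h j : ℕ) : ℤ) ∣ Nv y (h j) (c j) (κ j) (v j) := fun j => by
      unfold Nv
      exact dvd_mul_right _ _
    have e2 : ((I.filter (fun i => ∀ j : Fin 3, (Pool.Agent.N625.PT.Nm y (h j) (c j) (κ j) (v j) + (f j i : ℕ)).toNat.Prime)).card : ℝ) =
        Split n K (fun j => Nv y (h j) (c j) (κ j) (v j)) := by
      unfold Split
      congr 2
      ext k
      rw [mem_filter, mem_filter, Fin.forall_fin_succ, Fin.forall_fin_two, hNm, hNm, hNm]
      have q0 : 1 ≤ k → Nv y (h 0) (c 0) (κ 0) (v 0) + ((f 0 k : ℕ) : ℤ) = 6 * (k : ℤ) - 1 + Nv y (h 0) (c 0) (κ 0) (v 0) := by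
        intro hk
        rw [f0, Nat.cast_sub (by omega)]
        push_cast
        ring
      have q1 : Nv y (h 1) (c 1) (κ 1) (v 1) + ((f 1 k : ℕ) : ℤ) = 6 * (k : ℤ) + 1 + Nv y (h 1) (c 1) (κ 1) (v 1) := by
        rw [f1]
        push_cast
        ring
      have q2 : Nv y (h 2) (c 2) (κ 2) (v 2) + ((f 2 k : ℕ) : ℤ) = (p (n - k) : ℤ) + Nv y (h 2) (c 2) (κ 2) (v 2) := by
        rw [f2]
        exact add_comm _ _
      constructor
      · rintro ⟨g1, g2, g3, g4⟩
        obtain ⟨k1, k2, _⟩ := hIm k g1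
        have g3' : (Nv y (h 1) (c 1) (κ 1) (v 1) + ((f 1 k : ℕ) : ℤ)).toNat.Prime := g3
        have g4' : (Nv y (h 2) (c 2) (κ 2) (v 2) + ((f 2 k : ℕ) : ℤ)).toNat.Prime := g4
        rw [q0 k1] at g2
        rw [q1] at g3'
        rw [q2] at g4'
        have kK : k ∈ K := by
          rw [hI] at g1
          exact (mem_filter.1 g1).1
        exact ⟨kK, g2, g3', g4'⟩
      · rintro ⟨kK, g2, g3, g4⟩
        obtain ⟨k1, k2⟩ := mem_Icc.1 (hK kK)
        rw [← q0 k1] at g2
        rw [← q1] at g3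
        rw [← q2] at g4
        refine ⟨?_, g2, g3, g4⟩
        rw [hI]
        unfold Free
        rw [mem_filter]
        refine ⟨kK, ?_, ?_⟩
        · rw [← f0]
          exact cop_of (by rw [f0]; omega) (hpos 0) (hDN 0) (by rw [add_comm]; exact g2)
        · rw [← f1]
          exact cop_of (by rw [f1]; omega) (hpos 1) (hDN 1) (by rw [add_comm]; exact g3)
    rw [e2] at hv
    exact hv)

end Pool.Agent.Results.MP_ea8352_nt.WordIndices
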